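import Pool.Agent.Q216.PB.Main

set_option autoImplicit false

namespace Pool.Agent.Results.MP_ec0ea5_pr.UniqueUpToScaling

open MeasureTheory Pool.Agent.Q216.PB

/-- **Uniqueness up to scaling for the power-bias fixed point equation.**  For every `w > 0` and
every probability distribution `ψ` on the positive integers, any two solutions of
`X = V_w X^(ψ)` in law are scaled versions of each other. -/
theorem result (w : ℝ) (hw : 0 < w) (ψ : ℕ → ℝ) (hψ : ∀ k, 0 ≤ ψ k) (hψ0 : ψ 0 = 0)
    (hψ1 : HasSum ψ 1) (μ ν : Measure ℝ) (hμ : IsSolution w ψ μ) (hν : IsSolution w ψ ν) :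
    ∃ c : ℝ, 0 < c ∧ ν = μ.map (fun x => c * x) :=
  unique hw hψ hψ0 hψ1 hμ hν

end Pool.Agent.Results.MP_ec0ea5_pr.UniqueUpToScaling
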